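import Pool.Agent.W5h86.CC.Mn3
import Pool.Agent.W5h86.CC.Asm
import Pool.Agent.W5h86.CC.D

set_option autoImplicit false

/-!
# The period conjecture for the powers of abelian varieties with complex multiplication, if the
# real subfield of the CM field has prime degree or a large Galois group

Let `A` be an abelian variety over the field `ℚ̄` of algebraic numbers, of dimension `g`. A de
Rham-Betti class in `H_1(A, ℚ)^{∨ ⊗ 2m}(m)` is a multilinear form `φ` with rational values in `2 m`
variables in `H_1(A, ℚ)` such that `(2 π i) ^ m φ` is a combination with algebraic coefficients of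
the products of the elements of `H^1_dR(A / ℚ̄)`. By the formula of Künneth these are the components
of the de Rham-Betti classes in `H^{2m}(A^r)(m)`, for all powers `A^r`. Nothing is assumed about
periods: `AbVar` is the description of an abelian variety over `ℚ̄` by theta functions (see
`Pool/Agent/Y102/AVDefs.lean`, where it is explained why every abelian variety has it), and the
theorem of Deligne on Hodge classes is not used.

Let `E` be a CM field of degree `2 b`, with maximal real subfield `F` of degree `b`. We consider the
condition (G) that one of the following holds.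

* (P) An odd prime number `l > b / 2` divides the order of the Galois group of (the Galois closure
  of) `E`. This is always true if `b` is an odd prime number, and it is true if `b ≥ 3` and the Galois
  group of `F` is the symmetric or the alternating group, for all `E ⊃ F`.
* (D) `E` contains an imaginary quadratic field (so `E = F K`), and any two different places of `F`
  can be moved to any two different places of `F` by some automorphism of `ℂ`.

**Theorem 1.** Let `A` be simple with complex multiplication by the CM field `E` of degree `2 g`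
with the property (G). Then every de Rham-Betti class of degree `2 m` on every power of `A` is a
linear combination of products of classes of divisors (and is a Hodge class)

* if `2 m < g`, or if `m < g` and `g` is odd;
* for all `m`, if `E` contains no imaginary quadratic field.

So `GPC ^ m (A ^ r)` holds in these cases. In particular `GPC ^ m (A)` holds for all `m` if `g` is
odd, and for all `m ≠ g / 2` if `g` is even (for `2 m > g` it follows by the hard Lefschetz theorem).
The bound is the natural one: if `g` is even and `A` is of Weil type for an imaginary quadratic field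
`K ⊂ E` then the classes of Weil, of degree `g`, are Hodge classes which are not combinations of
products of classes of divisors.

**Theorem 2.** Let `A` be as in Theorem 1, without any condition on `m`.

* Let `Z ∈ E`, `Z̄ = - Z`, such that `tr (D Z) = 0` for all `D ∈ E` with `D̄ = - D` and `D² ∈ ℚ` (that
  is, the traces of `Z` to the imaginary quadratic subfields are zero). Then `Z` annihilates all de
  Rham-Betti classes on all powers of `A`. So the Lie algebra of the de Rham-Betti group of `A` is
  the Lie algebra of the unitary torus of `E`, or possibly of its subtorus of norm one over an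
  imaginary quadratic field `K ⊂ E` (there is at most one such `K`, as `A` is simple).
* If `A` is of Weil type for all imaginary quadratic fields `K ⊂ E` (if there are any), that is, if
  for these `D` the trace of `D` on the tangent space is zero, then every de Rham-Betti class on
  every power of `A` is a Hodge class.

**Theorem 3.** Let `A` have `g` commuting linearly independent endomorphisms which are symmetric for
the polarization. Such `A` are, up to isogeny, the products of simple abelian varieties which have
real multiplication by a field of degree equal to the dimension, or multiplication by a totally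
indefinite quaternion algebra over a totally real field of degree equal to half of the dimension, or
complex multiplication. Let `B i` be the simple factors with complex multiplication, up to isogeny,
by the fields `E i` of degree `2 b i`. Assume that for every `i` some automorphism of `ℂ` conjugates
all embeddings of `E i` and fixes all embeddings of the `E j`, `j ≠ i` (for one factor: the complex
conjugation). Assume that for every `i`

* the torus of `E i` is simple (this holds for the imaginary quadratic fields, for the CM fields of
  the simple abelian surfaces, for the general CM field, and for the cyclic fields of degree `2 ^ k`);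
* or `E i` has the property (G), and `E i` contains no imaginary quadratic field or `2 m < b i` (or
  `m < b i`, if `b i` is odd and `A` is isogenous to a power of `B i`).

Then every de Rham-Betti class of degree `2 m` on every power of `A` is a linear combination of
products of classes of divisors (and is a Hodge class).

The divisor classes here are the bilinear forms `(u, v) ↦ ω (Q u, v)` where `ω` is the polarization
and `Q` is an endomorphism of `A`: these are the components of the classes of divisors on the powers
of `A`. The endomorphisms are those of the de Rham-Betti object `H_1(A)`, and by a theorem of Bost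
(proved in this repository, `Pool.Agent.Y102.AbVar.hodge_end`) these are the endomorphisms of `A`.

## Proof

Let `𝔥` be the Lie algebra of the endomorphisms of `H_1(A, ℚ)` that annihilate all de Rham-Betti
classes. By the theorem of Schneider and Lang (in this repository) it acts semisimply and its
commutant is the algebra of endomorphisms of `A`. In Theorem 1 it is a subspace of the space of the
`x ∈ E` with `x̄ = - x`. Let `P` be a generator of `E` with `P̄ = - P`; its conjugates are the `s` with
`p(s) = 0`, `p` the minimal polynomial, and `𝔥` consists of elements `f(P)` with odd polynomials `f`.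

* If a class has a component of weights `s_1, …, s_{2m}` then `∑ f(s_k) = 0` for all `f(P) ∈ 𝔥`. Let
  `w(s)` be the number of the `k` with `s_k = s` minus the number of the `k` with `s_k = - s`.
* The field `E` is generated by `𝔥`, so for `s ≠ s'` there is an `f(P) ∈ 𝔥` with `f(s) ≠ f(s')`.
* Case (P). By Cauchy some automorphism `τ` of `ℂ` permutes `l` of the `g` places `{s, - s}` in a
  cycle `s, τ s, …, τ ^ (l-1) s` and fixes all other conjugates. Applying `τ - 1` to the relation
  `∑ w(s) f(s) = 0` (the sum over the places) only the terms in the cycle remain: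
  `∑ w(τ^j s) y_j = 0` where `y_j = τ^j y_0`, `y_0 = f(τ s) - f(s) ≠ 0`. As the cyclotomic polynomial
  of order `l` is irreducible, `w` is constant on the cycle. The conjugates of the cycle meet since
  `l > g / 2`. So `|w|` is constant on all places.
* Case (D). The relations form a module over the Galois group, in the permutation module of the
  places. If some `|w|` is not constant the module contains the differences of any two places, which
  is excluded by the second point.
* Hence, if `w ≠ 0`, we have `g ≤ 2 m`, and `2 g ≤ 2 m` if `g` is odd (parity).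
* Applying this to the sum of a relation and of its conjugate by `σ` one gets `w(σ s) = ± w(s)`, with
  a sign that depends only on `σ`. So a nonzero relation defines an imaginary quadratic subfield of
  `E`, and the values of `w` are proportional to the conjugates of a generator `D` of this field.
* If all relations vanish then every class is annihilated by all `x ∈ E` with `x̄ = - x`, and the
  first fundamental theorem gives the products of divisors. In general the elements `Z` of `E` with
  `tr (D Z) = 0` annihilate every class; for `A` of Weil type the components of the complex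
  structure `J` are such elements.
* In Theorem 3 the non-commutative part of `𝔥` is known (in this repository), and the relations
  split into the relations for the factors by the automorphisms of the assumption.
-/

open Module Polynomial Pool.Agent.Y102 Pool.Agent.W516.DR Pool.Agent.H204R3.GP

noncomputable section

namespace Pool.Agent.Results.MP_bf54cf_ag.CMPrimeOrTwoTransitive

variable {g : ℕ} (A : AbVar g)

/-- The multilinear forms in `2m` variables in the rational homology: the components of the elements
of `H^{2m}(A^r, ℚ)`. -/
abbrev Form (m : ℕ) : Type := MultilinearMap ℚ (fun _ : Fin m × Fin 2 => A.H1) ℚ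

/-- `φ` is a de Rham-Betti class. -/
def IsDRB {m : ℕ} (φ : Form A m) : Prop :=
  IsDeRhamBettiForm QBar A.dR (2 * Real.pi * Complex.I) m φ

/-- `φ` is a Hodge class. -/
def IsHodge {m : ℕ} (φ : Form A m) : Prop :=
  IsHodgeTensor (A.per : A.H1 →+ (Fin g → ℂ)) φ

/-- The endomorphisms of `A`, up to isogeny: the endomorphisms of `H_1(A, ℚ)` which respect the
de Rham cohomology over the field of algebraic numbers. -/
def IsEndomorphism (P : Module.End ℚ A.H1) : Prop := IsDeRhamBettiEnd QBar A.dR P

/-- The Riemann form of the polarization, on the rational homology. -/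
def polarization : A.H1 →ₗ[ℚ] A.H1 →ₗ[ℚ] ℚ := A.om

/-- `X` is skew-symmetric for the polarization. -/
def IsSkewSymmetric (X : Module.End ℚ A.H1) : Prop :=
  ∀ u v, polarization A (X u) v + polarization A u (X v) = 0

/-- `M` is the action of `D` on the tangent space. -/
def IsTangentAction (D : Module.End ℚ A.H1) (M : (Fin g → ℂ) →ₗ[ℂ] (Fin g → ℂ)) : Prop :=
  ∀ w, M (A.per w) = A.per (D w)

/-- The form is a product of divisor classes: a product of forms `(u, v) ↦ ω (Q u, v)`, where `ω` is
the polarization and `Q` is an endomorphism of `A`, in some order of the `2m` variables. -/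
def IsProductOfDivisorClasses {m : ℕ} (ψ : Form A m) : Prop :=
  ∃ (σ : Equiv.Perm (Fin m × Fin 2)) (Q : Fin m → Module.End ℚ A.H1),
    (∀ l, IsEndomorphism A (Q l)) ∧
    ∀ v, ψ v = ∏ l, polarization A (Q l (v (σ (l, 0)))) (v (σ (l, 1)))

/-- `A` is simple with complex multiplication by the field `E = ℚ(P)` of degree `2 g`: the algebra of
endomorphisms is generated by `P`, and `P` is skew-symmetric for the polarization (the Rosati
involution is the complex conjugation). -/
structure HasCM (P : Module.End ℚ A.H1) : Prop where
  endomorphism : IsEndomorphism A P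
  skew : IsSkewSymmetric A P
  generates : ∀ Q, IsEndomorphism A Q → Q ∈ Algebra.adjoin ℚ {P}
  simple : ∀ Q, IsEndomorphism A Q → Q ≠ 0 → Function.Injective Q
  degree : (minpoly ℚ P).natDegree = 2 * g

/-- (P): `b` is an odd prime number, or the order of the Galois group of `p` is divisible by an odd
prime number `l > b / 2`. -/
def HasLargePrime (p : ℚ[X]) (b : ℕ) : Prop :=
  ∃ l : ℕ, l.Prime ∧ l ≠ 2 ∧ b < 2 * l ∧ (l = b ∨ l ∣ Nat.card p.Gal)

/-- The field `E = ℚ[T] / (p)` contains no imaginary quadratic field: the square of the class of an odd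
polynomial is a rational number only if the class is zero. -/
def NoQuadraticSubfield (p : ℚ[X]) : Prop :=
  ∀ (q : ℚ[X]) (c : ℚ), q.comp (-X) = -q → p ∣ q ^ 2 - C c → p ∣ q

/-- (D): the field `E = ℚ[T] / (p)` contains an imaginary quadratic field, and any two different
squares of roots of `p` (the places of `F`) can be moved to any two different squares of roots. -/
def IsTwoTransitive (p : ℚ[X]) : Prop :=
  ¬ NoQuadraticSubfield p ∧ ∀ s₁ s₂ t₁ t₂ : ℂ, aeval s₁ p = 0 → aeval s₂ p = 0 → aeval t₁ p = 0 →
    aeval t₂ p = 0 → s₁ ^ 2 ≠ s₂ ^ 2 → t₁ ^ 2 ≠ t₂ ^ 2 →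
      ∃ σ : ℂ ≃+* ℂ, σ s₁ ^ 2 = t₁ ^ 2 ∧ σ s₂ ^ 2 = t₂ ^ 2

/-- The condition (G) for the field `ℚ[T] / (p)` of degree `2 b`. -/
def GaloisCondition (p : ℚ[X]) (b : ℕ) : Prop :=
  p.natDegree = 2 * b ∧ (HasLargePrime p b ∨ IsTwoTransitive p)

/-- The endomorphism `Z` annihilates the form `φ` (as a derivation). -/
def Annihilates {m : ℕ} (Z : Module.End ℚ A.H1) (φ : Form A m) : Prop :=
  ∀ v, ∑ k, φ (Function.update v k (Z (v k))) = 0

/-- There are no imaginary quadratic fields `ℚ(D)` in the algebra of endomorphisms. -/
def NoQuadraticEndomorphism : Prop :=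
  ∀ D, IsEndomorphism A D → IsSkewSymmetric A D → ∀ c : ℚ, D * D = c • (1 : Module.End ℚ A.H1) →
    D = 0

/-- `Z` is orthogonal to the imaginary quadratic fields `ℚ(D)` in the algebra of endomorphisms, for the
trace form. -/
def IsOrthogonalToQuadratic (Z : Module.End ℚ A.H1) : Prop :=
  ∀ D, IsEndomorphism A D → IsSkewSymmetric A D → ∀ c : ℚ, D * D = c • (1 : Module.End ℚ A.H1) →
    LinearMap.trace ℚ A.H1 (D * Z) = 0

/-- `A` is of Weil type for all imaginary quadratic fields `ℚ(D)` in the algebra of endomorphisms:
the trace of `D` on the tangent space is zero. -/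
def IsOfWeilType : Prop :=
  ∀ D, IsEndomorphism A D → IsSkewSymmetric A D → ∀ c : ℚ, D * D = c • (1 : Module.End ℚ A.H1) →
    ∀ M, IsTangentAction A D M → LinearMap.trace ℂ (Fin g → ℂ) M = 0

/-- There are `g` commuting linearly independent symmetric endomorphisms. -/
def MaximalRM : Prop := ∃ P : Fin g → Module.End ℚ A.H1, (∀ i, IsEndomorphism A (P i)) ∧
  (∀ i j, P i * P j = P j * P i) ∧
  (∀ i u v, polarization A (P i u) v = polarization A u (P i v)) ∧ LinearIndependent ℚ P

/-- `R` is an endomorphism which is skew-symmetric and central in the algebra of endomorphisms. -/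
def IsCentralSkew (R : Module.End ℚ A.H1) : Prop :=
  IsEndomorphism A R ∧ IsSkewSymmetric A R ∧ ∀ Q, IsEndomorphism A Q → R * Q = Q * R

/-- The central skew-symmetric endomorphisms are polynomials in one of them, `Y`, and the minimal
polynomial of `Y` is divisible by the `p i` and divides `T ∏ p i`, where the `p i` are irreducible and
even. The fields `ℚ[T] / (p i)` are the fields `E i` of the factors with complex multiplication. -/
structure IsCMPart {r : ℕ} (Y : Module.End ℚ A.H1) (p : Fin r → ℚ[X]) : Prop where
  central : IsCentralSkew A Y
  generates : ∀ R, IsCentralSkew A R → R ∈ Algebra.adjoin ℚ {Y}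
  irreducible : ∀ i, Irreducible (p i)
  even : ∀ i, (p i).comp (-X) = p i
  factor : ∀ i, p i ∣ minpoly ℚ Y
  minpoly_dvd : minpoly ℚ Y ∣ X * ∏ i, p i

/-- For every `i` some automorphism of the complex numbers changes the sign of all roots of `p i` and
fixes all roots of the `p j`, `j ≠ i`. -/
def Independent {r : ℕ} (p : Fin r → ℚ[X]) : Prop :=
  ∀ i, ∃ σ : ℂ ≃+* ℂ, (∀ z, aeval z (p i) = 0 → σ z = -z) ∧
    ∀ j, j ≠ i → ∀ z, aeval z (p j) = 0 → σ z = z

/-- The torus of the field `E = ℚ[T] / (p)` is simple: for every odd polynomial `f` which is not zero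
in `E` the only linear relations with integral coefficients between the conjugates `f(z)` are the
consequences of `f(- z) = - f(z)`. -/
def HasSimpleTorus (p : ℚ[X]) : Prop :=
  ∀ f : ℚ[X], f.comp (-X) = -f → ¬ p ∣ f → ∀ n : ℂ →₀ ℤ,
    (∀ z ∈ n.support, aeval z p = 0) →
    n.sum (fun z k => (k : ℂ) * aeval z f) = 0 → ∀ z, n z = n (-z)

/-- A root of an even polynomial. -/
lemma constW {p : ℚ[X]} (hp : Irreducible p) (hneg : ∀ z : ℂ, aeval z p = 0 → aeval (-z) p = 0)
    {b : ℕ} (h : GaloisCondition p b) : Pool.Agent.W5h86.CC.ConstW p := by
  obtain ⟨hdeg, ⟨l, hl, hodd, hbl, hdvd⟩ | ⟨hq, h2⟩⟩ := h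
  · exact Pool.Agent.W5h86.CC.constW_of_long hl hodd hbl
      (Pool.Agent.W5h86.CC.one_le_of_irr hp hdeg) hp hdeg hneg hdvd
  · unfold NoQuadraticSubfield at hq
    push Not at hq
    obtain ⟨q, c, h3, h4, h5⟩ := hq
    exact Pool.Agent.W5h86.CC.constW_of_two hp hneg h3 h4 h5 h2

/-- **The de Rham-Betti classes on all powers of abelian varieties whose factors with complex
multiplication have the property (G).** -/
theorem result :
    -- 1
    (∀ {g : ℕ} (A : AbVar g) {P : Module.End ℚ A.H1}, HasCM A P → GaloisCondition (minpoly ℚ P) g →
      ∀ {m : ℕ}, (2 * m < g ∨ (Odd g ∧ m < g) ∨ NoQuadraticEndomorphism A) →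
      ∀ φ : Form A m, IsDRB A φ →
        φ ∈ Submodule.span ℚ {ψ | IsProductOfDivisorClasses A ψ} ∧ IsHodge A φ) ∧
    -- 2
    (∀ {g : ℕ} (A : AbVar g) {P : Module.End ℚ A.H1}, HasCM A P → GaloisCondition (minpoly ℚ P) g →
      (∀ Z, IsEndomorphism A Z → IsSkewSymmetric A Z → IsOrthogonalToQuadratic A Z →
        ∀ {m : ℕ} (φ : Form A m), IsDRB A φ → Annihilates A Z φ) ∧
      (IsOfWeilType A → ∀ {m : ℕ} (φ : Form A m), IsDRB A φ → IsHodge A φ)) ∧
    -- 3
    (∀ {g : ℕ} (A : AbVar g), MaximalRM A → ∀ {r : ℕ} {Y : Module.End ℚ A.H1} {p : Fin r → ℚ[X]},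
      IsCMPart A Y p → Independent p → ∀ {m : ℕ},
      (∀ i, HasSimpleTorus (p i) ∨ ∃ b, GaloisCondition (p i) b ∧
        (NoQuadraticSubfield (p i) ∨ 2 * m < b ∨
          (r = 1 ∧ Function.Injective Y ∧ Odd b ∧ m < b))) →
      ∀ φ : Form A m, IsDRB A φ →
        φ ∈ Submodule.span ℚ {ψ | IsProductOfDivisorClasses A ψ} ∧ IsHodge A φ) := by
  have hCW : ∀ {g : ℕ} (A : AbVar g) {P : Module.End ℚ A.H1}, HasCM A P →
      GaloisCondition (minpoly ℚ P) g → 0 < g → Pool.Agent.W5h86.CC.ConstW (minpoly ℚ P) := by
    intro g A P hP hG hg0
    have hnt : Nontrivial A.H1 := by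
      have : Nonempty (Fin (2 * g)) := ⟨⟨0, by omega⟩⟩
      exact Function.nontrivial
    refine constW (Pool.Agent.W5h86.RK.irr_minpoly fun Q hQ hQ0 =>
      hP.simple Q (A.mem_EA.1 ?_) hQ0) (fun z hz => AbVar.neg_root A hP.skew hz) hG
    rw [Algebra.adjoin_singleton_eq_range_aeval] at hQ
    obtain ⟨q, rfl⟩ := hQ
    exact A.aeval_mem (A.mem_EA.2 hP.endomorphism) q
  refine ⟨?_, ?_, ?_⟩
  · rintro g A P hP hG m hm φ hφ
    have hPE := A.mem_EA.2 hP.endomorphism
    have key : ∀ Z : Module.End ℚ A.H1, IsSkewSymmetric A Z → Z * P = P * Z →
        Pool.Agent.H204R3.SP.Kills Z φ :=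
      fun Z hZ1 hZ2 => Pool.Agent.W5h86.CC.main8 A hPE hP.skew
        (fun Q hQ => hP.generates Q (A.mem_EA.1 hQ)) (fun Q hQ => hP.simple Q (A.mem_EA.1 hQ))
        hP.degree (hCW A hP hG) (by
          rcases hm with hm | hm | hm
          · exact Or.inl hm
          · exact Or.inr (Or.inl hm)
          · exact Or.inr (Or.inr fun D hD hDs c hc => hm D (A.mem_EA.1 hD) hDs c hc)) hφ hZ1 hZ2
    refine ⟨?_, Pool.Agent.W5h86.LX.hodge3 A hPE key⟩
    have hPi : Function.Injective P := by
      rcases Nat.eq_zero_or_pos g with hg0 | hg0
      · subst hg0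
        have hsub : Subsingleton A.H1 := ⟨fun a b => funext fun i => absurd i.2 (by omega)⟩
        exact fun a b _ => Subsingleton.elim a b
      · refine hP.simple P hP.endomorphism ?_
        rintro rfl
        have h1 : (minpoly ℚ (0 : Module.End ℚ A.H1)) ∣ X := by
          apply minpoly.dvd
          rw [aeval_X]
        have h2 := natDegree_le_of_dvd h1 X_ne_zero
        rw [hP.degree, natDegree_X] at h2
        omega
    refine Submodule.span_mono ?_ (Pool.Agent.W5h86.LX.lef_of_kills A hPE hP.skew hPi key)
    rintro ψ ⟨σ, Q, hQ, hψ⟩
    exact ⟨σ, Q, fun l => A.mem_EA.1 (hQ l), hψ⟩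
  · rintro g A P hP hG
    refine ⟨fun Z hZ hZs hZo m φ hφ => ?_, fun hW m φ hφ => ?_⟩
    · refine Pool.Agent.W5h86.CC.main11 A (A.mem_EA.2 hP.endomorphism) hP.skew
        (fun Q hQ => hP.generates Q (A.mem_EA.1 hQ)) (fun Q hQ => hP.simple Q (A.mem_EA.1 hQ))
        hP.degree (hCW A hP hG) hZs ?_
        (fun D hD hDs c hc => hZo D (A.mem_EA.1 hD) hDs c hc) hφ
      have h1 := hP.generates Z hZ
      rw [Algebra.adjoin_singleton_eq_range_aeval] at h1
      obtain ⟨q, rfl⟩ := h1
      change aeval P q * P = P * aeval P q
      have h2 : aeval P q * aeval P (X : ℚ[X]) = aeval P (X : ℚ[X]) * aeval P q :=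
        ((map_mul (aeval P) q X).symm.trans (congrArg (aeval P) (mul_comm q X))).trans
          (map_mul (aeval P) X q)
      rwa [aeval_X] at h2
    · exact Pool.Agent.W5h86.CC.main10 A (A.mem_EA.2 hP.endomorphism) hP.skew
        (fun Q hQ => hP.generates Q (A.mem_EA.1 hQ)) (fun Q hQ => hP.simple Q (A.mem_EA.1 hQ))
        hP.degree (hCW A hP hG)
        (fun D hD hDs c hc M hM => hW D (A.mem_EA.1 hD) hDs c hc M hM) hφ
  · rintro g A ⟨P, hP, hcomm, hsym, hli⟩ r Y p hY hind m hm φ hφ
    have hZA : ∀ R : Module.End ℚ A.H1, R ∈ A.ZA ↔ IsCentralSkew A R := by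
      intro R
      constructor
      · rintro ⟨h1, h2, h3⟩
        exact ⟨A.mem_EA.1 h1, h2, fun Q hQ => h3 Q (A.mem_EA.2 hQ)⟩
      · rintro ⟨h1, h2, h3⟩
        exact ⟨A.mem_EA.2 h1, h2, fun Q hQ => h3 Q (A.mem_EA.1 hQ)⟩
    have h := Pool.Agent.W5h86.CC.main9 A P hP hcomm hsym hli ((hZA Y).2 hY.central)
      (fun R hR => hY.generates R ((hZA R).1 hR)) p hY.irreducible hY.even hY.factor
      hY.minpoly_dvd hind (m := m) (fun i => by
        rcases hm i with h1 | ⟨b, hG, h1⟩
        · exact Or.inl h1
        · refine Or.inr ⟨b, hG.1, constW (hY.irreducible i) (fun z hz => ?_) hG, ?_⟩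
          · have h2 := congrArg (aeval z) (hY.even i)
            rw [aeval_comp, map_neg, aeval_X] at h2
            rw [h2, hz]
          rcases h1 with h1 | h1 | ⟨hr, h2, h3, h4⟩
          · exact Or.inl h1
          · exact Or.inr (Or.inl h1)
          · subst hr
            exact Or.inr (Or.inr ⟨h2, fun j => Subsingleton.elim j i, h3, h4⟩)) φ hφ
    refine ⟨Submodule.span_mono ?_ h.1, h.2⟩
    rintro ψ ⟨σ, Q, hQ, hψ⟩
    exact ⟨σ, Q, fun l => A.mem_EA.1 (hQ l), hψ⟩

end Pool.Agent.Results.MP_bf54cf_ag.CMPrimeOrTwoTransitive
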