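import Pool.Agent.W5h86.LP.Alt

set_option autoImplicit false

/-!
# The period conjecture on abelian varieties with multiplication by a field with complex
# multiplication, of signature (1, n - 1) at some places and definite at the others

Let `A` be an abelian variety of dimension `g` over the field `ℚ̄` of algebraic numbers. A de
Rham-Betti class in `H^{2k}(A)(k)` is an alternating form `φ` with rational values in `2 k` variables
in `H_1(A, ℚ)` such that `(2 π i) ^ k φ` is a combination with algebraic coefficients of the products
of the elements of `H^1_dR(A / ℚ̄)`. Nothing is assumed about periods: `AbVar` is the description of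
an abelian variety over `ℚ̄` by theta functions (see `Pool/Agent/Y102/AVDefs.lean`, where it is
explained why every abelian variety has it).

Let `A` be simple, with `End(A) ⊗ ℚ = E` a field with complex multiplication of any degree `2 e`, and
let `F` be its maximal real subfield. Let `E` be generated by an element `P` with `P̄ = - P`, so that
`F = ℚ(P²)`. Let `M` be the action of `P` on the tangent space. The places of `F` correspond to the
pairs `{s, -s}` of conjugates of `P`, and the signature of `A` at the place is given by the dimensions
of the eigenspaces `ker (M - s)` and `ker (M + s)`, whose sum is the dimension `n` of `H_1(A, ℚ)` over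
`E` (so `g = n e`). The place is definite if one of the dimensions is zero.

**Theorem.** Let `n ≥ 3`. Assume

* that the signature is `(1, n - 1)` or `(n - 1, 1)` at every indefinite place, and that there is an
  indefinite place;
* that the set of the definite places is not the preimage of a set of places of a proper subfield
  of `F`.

Let `k' = min (k, g - k)`, and let `2 k' < n`, or let `n` be odd and `k' < n`. Then every de
Rham-Betti class in `H^{2k}(A)(k)` is a linear combination with rational coefficients of products of
`k` classes of divisors (and is a Hodge class). So `GPC ^ k (A)` holds for these `k`.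

* The second condition holds if there is exactly one indefinite place (then the value of an element
  `x` of `F` at this place is taken only there, if `x` is as in `notInduced`; since all values are
  taken equally often, `x` generates `F`), more generally if the number of the indefinite places is
  prime to `e`, and also if `e` is a prime number and there are definite and indefinite places.
* If `e = 2` and `n` is odd, then all degrees are covered except the middle one, `k ≠ n`. If `e = 1`
  and `n` is odd all degrees are covered.
* If `n = 3` the first condition always holds if `A` is not definite at all places. So for `n = 3`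
  (abelian varieties of dimension `3 e`) the theorem says that `GPC ^ 1`, `GPC ^ 2`, `GPC ^ {g - 2}`
  and `GPC ^ {g - 1}` hold as soon as the set of the definite places is not induced from a proper
  subfield; for instance for all `A` with indefinite and definite places, if `e` is a prime number.
* Without the second condition there can be Hodge classes in `H^4` that are not combinations of
  products of divisor classes.

The degrees `k = 0` and `k = 1` are known (the theorem of Bost). The divisor classes are the
alternating forms `D (u, v) = ω (Q u, v)` where `ω` is the polarization and `Q` is an endomorphism of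
`A`, and the product of the classes `D_1, ..., D_k` is (up to a factor) the alternation of
`D_1 (v_1, v_2) ⋯ D_k (v_{2k-1}, v_{2k})`. The endomorphisms here are those of the de Rham-Betti
object `H_1(A)`, and by a theorem of Bost (proved in this repository, `Pool.Agent.Y102.AbVar.hodge_end`)
these are the endomorphisms of `A`.

## Proof

Let `𝔥` be the Lie algebra of the endomorphisms of `H_1(A, ℚ)` that annihilate all de Rham-Betti
classes. By the theorem of Schneider and Lang (in this repository) it acts semisimply and its
commutant is `E`. For a place `ρ` of `F` let `V_ρ` be the corresponding part of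
`H_1(A, ℝ) = ℂ ^ g`.

* Let `ρ` be an indefinite place. We change the complex structure of `V_ρ` to its negative on the
  orthogonal complement of the line given by the signature. Then the image of `𝔥 ⊗ ℝ` in `End(V_ρ)` is
  an irreducible Lie algebra of skew-hermitian maps for a form of signature `(1, n - 1)`, with
  nondegenerate trace form, and it contains the Lie algebra `so(1, n - 1)` of a
  real form of `V_ρ`; it is spanned by operators `T_ij` exchanging two vectors `b_i`, `b_j` of an
  orthogonal basis.
* The boosts among the `T_ij` have real eigenvalues, whereas the elements of `𝔥 ⊗ ℝ` have imaginary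
  eigenvalues at the definite places. By a Fitting decomposition for `(ad T)² - c` the `T_ij` lift to
  elements of `𝔥 ⊗ ℝ` which are zero at all definite places.
* Let `𝔫` be the ideal of these elements. It follows that `𝔥 ⊗ ℝ` is the sum of `𝔫` and its
  orthogonal complement for the trace form, and that the complement commutes with `𝔫` and acts by
  scalars at the indefinite places. So the derived algebra `𝔥'` of `𝔥`, tensored with `ℝ`, is stable
  under the projection to the indefinite places.
* Let `F'` be the field of the `c ∈ F` with `c 𝔥' ⊂ 𝔥'`. By the last step the elements of `F'`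
  separate the definite places from the indefinite places. So by the second condition `F' = F`, and
  `𝔥' ⊗ ℝ` contains its components at all places. Since `T_ij` is (up to the exchange factor) the
  bracket of `T_ik` and `T_kj`, for every indefinite place `ρ` the algebra `𝔥 ⊗ ℝ` contains operators
  `T_ij` acting by zero outside of `V_ρ`.
* An alternating form of degree different from `n` on `V_ρ` that is invariant under these operators is
  zero or is annihilated by the unitary Lie algebra `u(V_ρ)`, and it is zero if the degree is odd. So
  this holds for the components of a de Rham-Betti class whose degree at `ρ` is not `n`.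
* The degrees of the components at the places are permuted by the conjugations of `F`. If `n` is odd
  and there is a component of degree `n` at `ρ` then there is another place where the degree is odd,
  and by the conjugation and the last step it is equal to `n`. So `2 k ≥ 2 n`, and (as the dimension
  of `V_ρ` is `2 n`) also `2 (g - k) ≥ 2 n`. If `n` is even then `2 k ≥ n` and `2 (g - k) ≥ n`.
* So in the degrees of the theorem every class is annihilated by `u(V_ρ)` acting by zero outside of
  `V_ρ`. Let `Z` be in the Lefschetz Lie algebra, `R = P²`, and let `p` be the minimal polynomial of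
  `ρ`. Then `q(R) Z`, with `q = p / (x - ρ) = ∑ β i x ^ i`, is in `u(V_ρ)`. As the `β i` are linearly
  independent over `ℚ` and the `R ^ i Z` are rational, `Z` annihilates the class.
* By the first fundamental theorem for the product of the general linear groups of the eigenspaces of
  `E`, and by descent, the class is a combination of products of divisor classes.
-/

open Module Polynomial Pool.Agent.Y102 Pool.Agent.W516.DR Pool.Agent.H204R3.GP

noncomputable section

namespace Pool.Agent.Results.MP_bf54cf_ag.LorentzianPlaces

variable {g : ℕ} (A : AbVar g)

/-- The alternating forms in `2k` variables in the rational homology: the elements of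
`H^{2k}(A, ℚ)`. -/
abbrev Form (k : ℕ) : Type := A.H1 [⋀^Fin k × Fin 2]→ₗ[ℚ] ℚ

/-- `φ` is a de Rham-Betti class in `H^{2k}(A)(k)`. -/
def IsDRB {k : ℕ} (φ : Form A k) : Prop :=
  IsDeRhamBettiForm QBar A.dR (2 * Real.pi * Complex.I) k φ.toMultilinearMap

/-- `φ` is a Hodge class in `H^{2k}(A)(k)`. -/
def IsHodge {k : ℕ} (φ : Form A k) : Prop :=
  IsHodgeTensor (A.per : A.H1 →+ (Fin g → ℂ)) φ.toMultilinearMap

/-- The endomorphisms of `A`, up to isogeny: the endomorphisms of `H_1(A, ℚ)` which respect the
de Rham cohomology over the field of algebraic numbers. -/
def IsEndomorphism (P : Module.End ℚ A.H1) : Prop := IsDeRhamBettiEnd QBar A.dR P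

/-- The Riemann form of the polarization, on the rational homology. -/
def polarization : A.H1 →ₗ[ℚ] A.H1 →ₗ[ℚ] ℚ := A.om

/-- `X` is skew-symmetric for the polarization. -/
def IsSkewSymmetric (X : Module.End ℚ A.H1) : Prop :=
  ∀ u v, polarization A (X u) v + polarization A u (X v) = 0

/-- `A` is simple, its algebra of endomorphisms is commutative and generated by the endomorphism `P`,
and `P` is skew-symmetric for the polarization (so the algebra is a field with complex multiplication,
the Rosati involution being the complex conjugation). -/
structure IsCMFieldGeneratedBy (P : Module.End ℚ A.H1) : Prop where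
  endomorphism : IsEndomorphism A P
  skew : IsSkewSymmetric A P
  generates : ∀ Q, IsEndomorphism A Q → Q ∈ Algebra.adjoin ℚ {P}
  simple : ∀ Q, IsEndomorphism A Q → Q ≠ 0 → Function.Injective Q

/-- `M` is the action of `P` on the tangent space. -/
def IsTangentAction (P : Module.End ℚ A.H1) (M : (Fin g → ℂ) →ₗ[ℂ] (Fin g → ℂ)) : Prop :=
  ∀ w, M (A.per w) = A.per (P w)

/-- `s` is a conjugate of `P`. The pairs `{s, -s}` are the places of the field `F = ℚ(P²)`. -/
def IsConjugate (P : Module.End ℚ A.H1) (s : ℂ) : Prop := aeval s (minpoly ℚ P) = 0

/-- The eigenspace of `M` for the eigenvalue `s`. -/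
def eigen (M : (Fin g → ℂ) →ₗ[ℂ] (Fin g → ℂ)) (s : ℂ) : Submodule ℂ (Fin g → ℂ) :=
  LinearMap.ker (M - s • LinearMap.id)

/-- The signature at the place `{s, -s}` is definite: one of the two eigenspaces is zero. -/
def IsDefinite (M : (Fin g → ℂ) →ₗ[ℂ] (Fin g → ℂ)) (s : ℂ) : Prop :=
  eigen M s = ⊥ ∨ eigen M (-s) = ⊥

/-- The dimension of `H_1(A, ℚ)` over `E` is `n` (this is the sum of the dimensions of the eigenspaces
for `s` and `-s`, for every place `{s, -s}`), every place is definite or of signature `(1, n - 1)` or
`(n - 1, 1)`, there is an indefinite place, and the set of the definite places is not the preimage of a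
set of places of a proper subfield of `F = ℚ(P²)`: if, for an element `x = f(P²)` of `F`, any two
places where `x` has the same value are both definite or both indefinite, then `x` has different
values at different places (so `ℚ(x) = F`). -/
structure IsLorentzian (P : Module.End ℚ A.H1) (M : (Fin g → ℂ) →ₗ[ℂ] (Fin g → ℂ)) (n : ℕ) :
    Prop where
  rank : ∀ s, IsConjugate A P s → finrank ℂ (eigen M s) + finrank ℂ (eigen M (-s)) = n
  signature : ∀ s, IsConjugate A P s →
    IsDefinite M s ∨ finrank ℂ (eigen M s) = 1 ∨ finrank ℂ (eigen M (-s)) = 1
  indefinite : ∃ s, IsConjugate A P s ∧ ¬ IsDefinite M s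
  notInduced : ∀ f : ℚ[X],
    (∀ s s', IsConjugate A P s → IsConjugate A P s' → aeval (s ^ 2) f = aeval (s' ^ 2) f →
      (IsDefinite M s ↔ IsDefinite M s')) →
    ∀ s s', IsConjugate A P s → IsConjugate A P s' → aeval (s ^ 2) f = aeval (s' ^ 2) f →
      s ^ 2 = s' ^ 2

/-- `D` is the class of a divisor (up to a rational factor): an alternating form
`(u, v) ↦ ω (Q u, v)` where `ω` is the polarization and `Q` is an endomorphism of `A`. -/
def IsDivisorClass (D : A.H1 →ₗ[ℚ] A.H1 →ₗ[ℚ] ℚ) : Prop :=
  (∀ u, D u u = 0) ∧ ∃ Q, IsEndomorphism A Q ∧ ∀ u v, D u v = polarization A (Q u) v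

/-- The form is (up to a rational factor) the cup product of `k` divisor classes: the alternation of
`D_1 (v_1, v_2) ⋯ D_k (v_{2k-1}, v_{2k})`. -/
def IsProductOfDivisorClasses {k : ℕ} (ψ : Form A k) : Prop :=
  ∃ D : Fin k → A.H1 →ₗ[ℚ] A.H1 →ₗ[ℚ] ℚ, (∀ l, IsDivisorClass A (D l)) ∧
    ∀ v, ψ v = ∑ σ : Equiv.Perm (Fin k × Fin 2),
      ((Equiv.Perm.sign σ : ℤ) : ℚ) * ∏ l, D l (v (σ (l, 0))) (v (σ (l, 1)))

/-- **The de Rham-Betti classes in `H^{2k}(A)(k)` are combinations of products of divisor classes (and
are Hodge classes), for the abelian varieties with multiplication by a field with complex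
multiplication, of signature `(1, n - 1)` at some places and definite at the others, if the definite
places are not induced from a proper subfield, and if `2 k < n` or `2 (g - k) < n`, or `n` is odd and
`k < n` or `g - k < n`.** -/
theorem result {g : ℕ} (A : AbVar g) {P : Module.End ℚ A.H1} (hP : IsCMFieldGeneratedBy A P)
    {M : (Fin g → ℂ) →ₗ[ℂ] (Fin g → ℂ)} (hM : IsTangentAction A P M) {n : ℕ} (hn : 3 ≤ n)
    (hs : IsLorentzian A P M n) {k : ℕ}
    (hk : 2 * k < n ∨ 2 * g < 2 * k + n ∨ (Odd n ∧ (k < n ∨ g < k + n)))
    (φ : Form A k) (hφ : IsDRB A φ) :
    φ ∈ Submodule.span ℚ {ψ : Form A k | IsProductOfDivisorClasses A ψ} ∧ IsHodge A φ := by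
  have hPE := A.mem_EA.2 hP.endomorphism
  have hzero : ∀ s : ℂ, eigen M s = ⊥ → finrank ℂ (eigen M s) ≤ 1 := fun s h => by
    rw [h, finrank_bot]
    exact Nat.zero_le 1
  have key : ∀ Z : Module.End ℚ A.H1, IsSkewSymmetric A Z → Z * P = P * Z →
      ∀ w : Fin k × Fin 2 → A.H1, ∑ r, φ (Function.update w r (Z (w r))) = 0 :=
    fun Z hZ1 hZ2 w => Pool.Agent.W5h86.LP.main5 A hPE hP.skew
      (fun Q hQ => hP.generates Q (A.mem_EA.1 hQ)) (fun Q hQ => hP.simple Q (A.mem_EA.1 hQ)) hM hn
      hs.rank (fun s h1 => by
        rcases hs.signature s h1 with (h2 | h2) | h2 | h2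
        · exact Or.inl (hzero _ h2)
        · exact Or.inr (hzero _ h2)
        · exact Or.inl h2.le
        · exact Or.inr h2.le) hs.indefinite (fun f hf s s' h1 h2 h3 => by
        refine hs.notInduced f (fun s s' h1 h2 h3 => ⟨hf s s' h1 h2 h3, hf s' s h2 h1 h3.symm⟩)
          s s' h1 h2 h3) (by
        rcases hk with h1 | h1 | ⟨h1, h2 | h2⟩
        · exact Or.inl h1
        · exact Or.inr (Or.inr (Or.inl h1))
        · exact Or.inr (Or.inl ⟨h1, h2⟩)
        · exact Or.inr (Or.inr (Or.inr ⟨h1, by omega⟩))) φ hφ hZ1 hZ2 w
  have hP0 : P ≠ 0 := by
    rintro rfl
    obtain ⟨s, hs1, hs2⟩ := hs.indefinite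
    have h1 := hs.rank s hs1
    have hmin : IsConjugate A (0 : Module.End ℚ A.H1) 0 ∨ Subsingleton (Module.End ℚ A.H1) := by
      rcases subsingleton_or_nontrivial (Module.End ℚ A.H1) with h | h
      · exact Or.inr h
      · left
        unfold IsConjugate
        rw [minpoly.zero, aeval_X]
    rcases hmin with h2 | h2
    · have h3 := hs.rank 0 h2
      have h4 := hs.signature 0 h2
      unfold IsDefinite at h4
      rw [neg_zero] at h3 h4
      rcases h4 with (h4 | h4) | h4 | h4
      · rw [h4, finrank_bot] at h3
        omega
      · rw [h4, finrank_bot] at h3
        omega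
      · omega
      · omega
    · unfold IsConjugate at hs1
      rw [minpoly.subsingleton, map_one] at hs1
      exact one_ne_zero hs1
  refine ⟨?_, Pool.Agent.W5h86.LY.hodge2 A hPE key⟩
  refine Submodule.span_mono ?_ (Pool.Agent.W5h86.LP.alt_of_kills A hPE hP.skew
    (hP.simple P hP.endomorphism hP0) key)
  rintro ψ ⟨i, hi, hψ⟩
  have hpow : ∀ m : ℕ, P ^ m ∈ A.EA := by
    intro m
    induction m with
    | zero => rw [pow_zero]; exact A.EA_one
    | succ m ih => rw [pow_succ]; exact A.EA_mul ih hPE
  refine ⟨fun l => A.om.comp (P ^ i l), fun l => ⟨fun u => ?_, P ^ i l, A.mem_EA.1 (hpow _),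
    fun u v => rfl⟩, hψ⟩
  have h1 := Pool.Agent.W5h86.LP.pow_skew (om := A.om) hP.skew (i l) u u
  rw [(hi l).neg_one_pow, one_mul, A.om_anti u] at h1
  have h2 : A.om ((P ^ i l) u) u = 0 := by linarith
  exact h2

end Pool.Agent.Results.MP_bf54cf_ag.LorentzianPlaces
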