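import Pool.Agent.W5h25.AS.AV

set_option autoImplicit false

/-!
# The period conjecture for cycles of every codimension on products of abelian surfaces, and on all
# abelian varieties without factors of type IV whose central eigenspaces have dimension at most four

Let `A` be an abelian variety of any dimension `g` over the field `ℚ̄` of algebraic numbers. A
de Rham-Betti class in `H^{2k}(A)(k)` is an alternating form `φ` with rational values in `2 k`
variables in `H_1(A, ℚ)` such that `(2 π i) ^ k φ` is a combination with algebraic coefficients of the
products of the elements of `H^1_dR(A / ℚ̄)`. Nothing is assumed about periods: `AbVar` is the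
description of an abelian variety over `ℚ̄` by theta functions (see `Pool/Agent/Y102/AVDefs.lean`,
where it is explained why every abelian variety has it).

**Theorem.** Assume that

* `A` has no factor of type IV: the Rosati involution is trivial on the centre `Z` of the algebra of
  the endomorphisms of `A` (`Z` is a product of totally real fields), and
* the common eigenspaces of `Z` on `H_1(A, ℂ)` have dimension at most four.

Let `k` be any integer. Then all de Rham-Betti classes in `H^{2k}(A)(k)` are Hodge classes. More
precisely they are annihilated by all endomorphisms `X` of `H_1(A, ℚ)` which commute with the
endomorphisms of `A` and are skew-symmetric for the polarization (the Lie algebra of the Lefschetz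
group).

By the classical invariant theory of the symplectic groups the classes which are annihilated by the
Lefschetz Lie algebra are combinations of products of divisor classes (Weyl, Tankeev, Murty, Milne),
so we have `GPC ^ k (A)` for all `k`. Nothing is assumed about the Hodge group. The endomorphisms here
are those of the de Rham-Betti object `H_1(A)`, and by a theorem of Bost (proved in this repository,
`Pool.Agent.Y102.AbVar.hodge_end`) these are the endomorphisms of `A`.

The hypotheses hold for the following abelian varieties, and for all products of them which have no
isogenous simple factors in common.

* All abelian surfaces without factors of type IV: the general surfaces, with `End = ℤ`; the surfaces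
  with real or quaternionic multiplication; the products and the squares of elliptic curves without
  complex multiplication. So the theorem holds for *all products of pairwise non-isogenous simple
  abelian surfaces and elliptic curves without complex multiplication* (and with the squares of the
  elliptic curves).
* The simple abelian varieties of type I of relative dimension at most two, of any dimension `g`: the
  algebra of the endomorphisms is a totally real field of degree `g` or `g / 2` (Hilbert-Siegel
  modular varieties of genus two), and the squares of the former.
* The simple abelian varieties of dimension `g` with multiplication by a totally indefinite quaternion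
  algebra over a totally real field of degree `g / 2`.

For example let `C_1, …, C_r` be curves over `ℚ̄` of genus two whose Jacobians have `End = ℤ` and are
pairwise not isogenous. Then `GPC ^ k` holds for all `k` for the product of the Jacobians, and for the
product `C_1 × … × C_r`, whose cohomology is a direct summand of it.

For abelian fourfolds and `k = 2` this is contained in `FourfoldsNoTypeIV`. If all
irreducible components of `H_1(A, ℂ)` have dimension two it is contained in `MaximalRealMult` (with
all powers of `A`). The new cases are those where some eigenspace of `Z` is an irreducible symplectic
space of dimension four, in all dimensions `g ≥ 5` and all codimensions. For powers of `A` the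
statement would be of a different nature: already for a single surface with `End = ℤ` one cannot
exclude at present that the de Rham-Betti group is the group `GL(2)` acting by the third symmetric
power.

## Proof

By the theorem of Schneider and Lang the Lie algebra `𝔥` of the endomorphisms that annihilate all
de Rham-Betti classes acts semisimply on `H_1(A, ℚ)` and has the commutant `End(A)`. As there are no
factors of type IV, its centre is zero. Let `L = 𝔥 ⊗ ℂ`, `U = H_1(A, ℂ)`. The isotypic components of
`U` are the eigenspaces of `Z`; they are symplectic and pairwise orthogonal, and the irreducible
subspaces have even dimension, so each component is irreducible of dimension four or two, or the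
sum of two isomorphic spaces of dimension two.

* *Classification.* Let `N` be irreducible of dimension four. By the reflections and strings of its
  weights, and since it is symplectic, `N` is either of type II, with weights `±λ`, `±μ` and roots
  `±2λ`, `±2μ`, `±λ±μ` acting on `N`, or of type I, with weights `±3ν`, `±ν` and with `±2ν` as the only
  roots that act on `N` (the third symmetric power for `sl(2)`).
* *Separation.* A root that acts on an irreducible subspace is a difference of two of its weights, and
  if two roots are not orthogonal and one of them acts on a subspace then the other one acts too. It
  follows that the roots of type II act on no other irreducible subspace, and that the root `2ν` of a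
  space of type I acts on other irreducible subspaces only if they have dimension two and the weights
  `±ν`. As these are all in one component, the eigenvalues of the coroot of `2ν` on the orthogonal
  complement `N^⊥` are `0`, `1`, `-1`, the last two with multiplicity at most two.
* *The torus.* Let `X` be the endomorphism of `N` which is `1`, `-1` and `0` on the weight spaces of
  the highest weight, the lowest weight and the two other weights, extended by zero to `N^⊥`. Then `X`
  annihilates `φ`. For type II it is the coroot of `2λ`, an element of `L`. For type I let `φ` be
  nonzero on a family of basis vectors. They are different, and the sum of their weights is zero.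
  If the highest weight vector `v_3` occurs and the lowest `v_{-3}` does not, then by counting the
  others are `v_{-1}`, both vectors of weight `-ν` in `N^⊥`, and vectors of weight zero; and this is
  excluded by applying the lowering operator to the family with `v_1` instead of `v_{-1}`.
* *Generation.* `X` and the raising and lowering operators in `L` generate the Lie algebra `sp(N)`,
  extended by zero to `N^⊥`. So it annihilates `φ`.
* On the sum of the irreducible subspaces of dimension two the Lie algebra `L` contains all
  skew-symmetric endomorphisms that commute with the commutant (`GB.two`), and the theorem follows.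
-/

open Module TensorProduct Pool.Agent.Y102 Pool.Agent.W516.DR Pool.Agent.H204R3.GP

noncomputable section

namespace Pool.Agent.Results.MP_bf54cf_ag.ProductsOfSurfaces

variable {g : ℕ} (A : AbVar g)

/-- The alternating forms in `2 k` variables in the rational homology: the elements of
`H^{2k}(A, ℚ)`. -/
abbrev Form (k : ℕ) : Type := A.H1 [⋀^Fin k × Fin 2]→ₗ[ℚ] ℚ

/-- `φ` is a de Rham-Betti class in `H^{2k}(A)(k)`. -/
def IsDRB {k : ℕ} (φ : Form A k) : Prop :=
  IsDeRhamBettiForm QBar A.dR (2 * Real.pi * Complex.I) k φ.toMultilinearMap

/-- `φ` is a Hodge class in `H^{2k}(A)(k)`. -/
def IsHodge {k : ℕ} (φ : Form A k) : Prop :=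
  IsHodgeTensor (A.per : A.H1 →+ (Fin g → ℂ)) φ.toMultilinearMap

/-- The endomorphisms of `A`, up to isogeny: the endomorphisms of `H_1(A, ℚ)` which respect the
de Rham cohomology over the field of algebraic numbers. -/
def IsEndomorphism (P : Module.End ℚ A.H1) : Prop := IsDeRhamBettiEnd QBar A.dR P

/-- `P` is in the centre of the algebra of the endomorphisms. -/
def IsCentral (P : Module.End ℚ A.H1) : Prop :=
  IsEndomorphism A P ∧ ∀ Q, IsEndomorphism A Q → P * Q = Q * P

/-- The Riemann form of the polarization, on the rational homology. -/
def polarization : A.H1 →ₗ[ℚ] A.H1 →ₗ[ℚ] ℚ := A.om

/-- `X` is skew-symmetric for the polarization. -/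
def IsSkewSymmetric (X : Module.End ℚ A.H1) : Prop :=
  ∀ u v, polarization A (X u) v + polarization A u (X v) = 0

/-- There is no factor of type IV: the Rosati involution is trivial on the centre of the algebra of
the endomorphisms, that is, the centre contains no nonzero skew-symmetric element. -/
def NoFactorOfTypeIV : Prop :=
  ∀ P, IsCentral A P → IsSkewSymmetric A P → P = 0

/-- The common eigenspace in `H_1(A, ℂ)` of the centre of the algebra of the endomorphisms, with the
eigenvalues `c P`. -/
def centralEigenspace (c : Module.End ℚ A.H1 → ℂ) : Submodule ℂ (ℂ ⊗[ℚ] A.H1) where
  carrier := {u | ∀ P, IsCentral A P → P.baseChange ℂ u = c P • u}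
  zero_mem' := fun P _ => by rw [map_zero, smul_zero]
  add_mem' := fun {u v} hu hv P hP => by rw [map_add, hu P hP, hv P hP, smul_add]
  smul_mem' := fun r u hu P hP => by rw [map_smul, hu P hP, smul_comm]

/-- The endomorphism `X` annihilates the form `φ` (as a derivation). -/
def Annihilates {k : ℕ} (X : Module.End ℚ A.H1) (φ : Form A k) : Prop :=
  ∀ v, ∑ i, φ (Function.update v i (X (v i))) = 0

/-- **The de Rham-Betti classes of all degrees on abelian varieties without factors of type IV whose
central eigenspaces have dimension at most four are Hodge classes, and are annihilated by the
Lefschetz Lie algebra.** -/
theorem result {g : ℕ} (A : AbVar g) (hA : NoFactorOfTypeIV A)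
    (hE : ∀ c, finrank ℂ (centralEigenspace A c) ≤ 4) {k : ℕ} (φ : Form A k) (hφ : IsDRB A φ) :
    IsHodge A φ ∧
    ∀ X : Module.End ℚ A.H1, IsSkewSymmetric A X →
      (∀ Q, IsEndomorphism A Q → X * Q = Q * X) → Annihilates A X φ := by
  have hc : ∀ P, P ∈ Pool.Agent.R912.ZC A ↔ IsCentral A P := fun P =>
    ⟨fun h => ⟨A.mem_EA.1 h.1, fun Q hQ => h.2 Q (A.mem_EA.2 hQ)⟩,
      fun h => ⟨A.mem_EA.2 h.1, fun Q hQ => h.2 Q (A.mem_EA.1 hQ)⟩⟩
  have hZ' : Pool.Agent.R912.NoTypeIV A := fun P hP hc' hs => hA P ((hc P).1 ⟨hP, hc'⟩) hs
  have hE' : ∀ c, finrank ℂ (Pool.Agent.W5h25.AS.ceig A c) ≤ 4 := by
    intro c
    refine le_trans (Submodule.finrank_mono ?_) (hE c)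
    intro u hu P hP
    exact hu P ((hc P).2 hP)
  exact ⟨Pool.Agent.W5h25.AS.surf_hodge A hZ' hE' φ hφ, fun X h1 h2 =>
    Pool.Agent.W5h25.AS.surf_kills A hZ' hE' φ hφ h1 fun Q hQ => h2 Q (A.mem_EA.1 hQ)⟩

end Pool.Agent.Results.MP_bf54cf_ag.ProductsOfSurfaces
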