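import Pool.Agent.W5h86.RK.Fin
import Pool.Agent.W5h86.CC.S4
import Pool.Agent.W5h86.CC.Mn2

set_option autoImplicit false

/-!
# The period conjecture for all powers of the abelian varieties with multiplication by a field with
# complex multiplication, of rank two and of any signature which is not induced from a subfield

Let `A` be an abelian variety over the field `ℚ̄` of algebraic numbers. A de Rham-Betti class in
`H_1(A, ℚ)^{∨ ⊗ 2m}(m)` is a multilinear form `φ` with rational values in `2 m` variables in
`H_1(A, ℚ)` such that `(2 π i) ^ m φ` is a combination with algebraic coefficients of the products of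
the elements of `H^1_dR(A / ℚ̄)`. By the formula of Künneth these are the components of the de
Rham-Betti classes in `H^{2m}(A^r)(m)`, for all powers `A^r`. Nothing is assumed about periods:
`AbVar` is the description of an abelian variety over `ℚ̄` by theta functions (see
`Pool/Agent/Y102/AVDefs.lean`, where it is explained why every abelian variety has it).

Let `A` be simple, with `End(A) ⊗ ℚ = E` a field with complex multiplication of degree `2 e`, and let
`F` be its maximal real subfield. Let `E` be generated by an element `P` with `P̄ = - P`, so that
`F = ℚ(P²)`. Let `H_1(A, ℚ)` have dimension two over `E`, that is, `dim A = 2 e`. Let `M` be the action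
of `P` on the tangent space. The places of `F` correspond to the pairs `{s, -s}` of conjugates of
`P`, and the signature of `A` at the place is given by the dimensions of the eigenspaces
`ker (M - s)` and `ker (M + s)`: it is `(1, 1)` (indefinite), or `(2, 0)` or `(0, 2)` (definite).

**Theorem.** Assume

* that the set of the definite places is not empty, and that it is not the preimage of a set of
  places of a proper subfield of `F`;
* that one of the following conditions holds:

  (T) The torus of `E` is simple, that is, for `0 ≠ x ∈ E` with `x̄ = - x` there are no linear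
  relations with integral coefficients between the conjugates of `x`, except the trivial ones.

  (P) `E` contains no imaginary quadratic field, and `e` is an odd prime number, or, more generally,
  an odd prime number `l > e / 2` divides the order of the Galois group of (the Galois closure of)
  `E`.

Then every de Rham-Betti class on every power of `A` is a linear combination with rational
coefficients of products of classes of divisors (and is a Hodge class).

So `GPC ^ m (A ^ r)` (and the Hodge conjecture for the de Rham-Betti classes) holds for all `m`
and `r`. If `e` is a prime number the first condition is always satisfied: it says that `A` is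
definite at some places and indefinite at others, and otherwise `A` could not be simple with
`End(A) ⊗ ℚ = E`. So for an odd prime number `e` and a field `E` of degree `2 e` with complex
multiplication that contains no imaginary quadratic field, the theorem applies to all simple abelian
varieties of dimension `2 e` with `End(A) ⊗ ℚ = E`. The first condition
is also satisfied if the number of the indefinite places is prime to `e` (and `e ≥ 2`); the case of
exactly one indefinite place was treated before (by a different method, with the Lorentzian geometry
of the place). Without the first condition there can be Hodge classes which are not combinations of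
products of divisor classes. The torus of `E` is simple if and only if the Galois module of the odd
functions `Hom(E, ℂ) → ℚ` is irreducible. For instance this holds if an automorphism of `ℂ`
conjugates one pair of embeddings of `E` and fixes the others (so for the general `E`), or if `E` is
cyclic of degree `2 ^ k`. It does not hold if `e ≥ 2` and `E` contains an imaginary quadratic field.
Condition (P) implies that the torus is simple (step 5 of the proof). The prime number `l` exists
also if `e ≥ 3` and the Galois group of the real subfield `F` contains the alternating group.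

For `e = 2` (fourfolds of type IV) the statement about `A` itself is known (Zekun Ji). The divisor
classes here are the bilinear forms `(u, v) ↦ ω (Q u, v)` where `ω` is the polarization and `Q` is
an endomorphism of `A`: these are the components of the classes of divisors on the powers of `A`.
The endomorphisms are those of the de Rham-Betti object `H_1(A)`, and by a theorem of Bost (proved
in this repository, `Pool.Agent.Y102.AbVar.hodge_end`) these are the endomorphisms of `A`.

## Proof

Let `𝔥` be the Lie algebra of the endomorphisms of `H_1(A, ℚ)` that annihilate all de Rham-Betti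
classes. By the theorem of Schneider and Lang (in this repository) it acts semisimply and its
commutant is `E`. Let `𝔨` be the part of the elements of trace zero over `E`. For `x ∈ 𝔨` the square
`q(x) = x²` is a scalar in `F`, by the theorem of Cayley and Hamilton.

* For `x ∈ 𝔨` different from zero `q(x)` is negative at all definite places. If conversely `x`,
  `y ∈ 𝔨` anticommute and `q(x)`, `q(y)` are negative at a place `v`, then for an eigenvector `a` of
  `M` the vectors `a`, `x a`, `y a`, `x y a` are orthogonal for the hermitian form of the place, with
  norms of the same sign, so `v` is definite.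
* Take `x ∈ 𝔨` such that `q(x)` separates any two places which are separated by some `q(x')`, and an
  element `y = [x, x'] ≠ 0`, which anticommutes with `x`. By the first point two places where `q(x)`
  has the same value are both definite or both indefinite. So by the assumption `q(x)` generates `F`.
* From `[x, [x, y]] = 4 q(x) y` one deduces that `F y`, then `F x y` and `F x` are contained in `𝔨`.
  So `𝔨` consists of all skew-symmetric endomorphisms over `E` of trace zero.
* If `𝔥` had no centre it would be perfect, so equal to `𝔨`, and would generate an algebra in which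
  the only elements of `E` are those of `F`. But it generates the algebra of all `E`-linear
  endomorphisms. So `𝔥` contains a nonzero element of `E`, and as the torus is simple, every class is
  annihilated by all `x ∈ E` with `x̄ = - x`.
* The condition (P) implies (T): let `x = f(z)` be the conjugates of an element `x ≠ 0` with
  `x̄ = - x`, and let a relation with coefficients `n(z)` be given, with weights
  `w(z) = n(z) - n(- z)`. By the assumption on `l` there is an automorphism of `ℂ` which permutes `l`
  of the `e` pairs `{z, - z}` in a cycle `z_0, z_1, …` of length `l` and fixes all other conjugates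
  of `P`. If `x` had the same value at all `z_j` its square would be rational (any two cycles of more
  than `e / 2` pairs meet), which is excluded. As `l` is prime the relation implies that `w` is
  constant on the cycle. So `|w|` is constant. The same holds for the sum of two relations, so the
  Galois group acts on `w` through a sign. If `w ≠ 0` then `∑ w(z) z ^ k`, for some `k`, would
  generate an imaginary quadratic field in `E`.
* So every class is annihilated by the Lefschetz Lie algebra. By the first fundamental theorem for
  the product of the general linear groups of the eigenspaces of `E`, and by descent, it is a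
  combination of products of the forms `ω (Q u, v)` with `Q ∈ E`.
-/

open Module Polynomial Pool.Agent.Y102 Pool.Agent.W516.DR Pool.Agent.H204R3.GP

noncomputable section

namespace Pool.Agent.Results.MP_bf54cf_ag.RankTwoAnySignature

variable {g : ℕ} (A : AbVar g)

/-- The multilinear forms in `2m` variables in the rational homology: the components of the elements
of `H^{2m}(A^r, ℚ)`. -/
abbrev Form (m : ℕ) : Type := MultilinearMap ℚ (fun _ : Fin m × Fin 2 => A.H1) ℚ

/-- `φ` is a de Rham-Betti class. -/
def IsDRB {m : ℕ} (φ : Form A m) : Prop :=
  IsDeRhamBettiForm QBar A.dR (2 * Real.pi * Complex.I) m φ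

/-- `φ` is a Hodge class. -/
def IsHodge {m : ℕ} (φ : Form A m) : Prop :=
  IsHodgeTensor (A.per : A.H1 →+ (Fin g → ℂ)) φ

/-- The endomorphisms of `A`, up to isogeny: the endomorphisms of `H_1(A, ℚ)` which respect the
de Rham cohomology over the field of algebraic numbers. -/
def IsEndomorphism (P : Module.End ℚ A.H1) : Prop := IsDeRhamBettiEnd QBar A.dR P

/-- The Riemann form of the polarization, on the rational homology. -/
def polarization : A.H1 →ₗ[ℚ] A.H1 →ₗ[ℚ] ℚ := A.om

/-- `X` is skew-symmetric for the polarization. -/
def IsSkewSymmetric (X : Module.End ℚ A.H1) : Prop :=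
  ∀ u v, polarization A (X u) v + polarization A u (X v) = 0

/-- `A` is simple, its algebra of endomorphisms is commutative and generated by the endomorphism `P`,
and `P` is skew-symmetric for the polarization (so the algebra is a field with complex multiplication,
the Rosati involution being the complex conjugation). The dimension of the homology over this field
is two: the degree of the field is the dimension of `A`. -/
structure IsCMFieldOfRankTwo (P : Module.End ℚ A.H1) : Prop where
  endomorphism : IsEndomorphism A P
  skew : IsSkewSymmetric A P
  generates : ∀ Q, IsEndomorphism A Q → Q ∈ Algebra.adjoin ℚ {P}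
  simple : ∀ Q, IsEndomorphism A Q → Q ≠ 0 → Function.Injective Q
  rankTwo : (minpoly ℚ P).natDegree = g

/-- The torus of the field `E = ℚ(P)` is simple: for every `x = f(P) ≠ 0`, `f` an odd polynomial (that
is, for every `x ≠ 0` in `E` with `x̄ = - x`), the only linear relations with integral coefficients
between the conjugates `f(z)` of `x` are the consequences of `f(- z) = - f(z)`. -/
def HasSimpleTorus (P : Module.End ℚ A.H1) : Prop :=
  ∀ f : ℚ[X], f.comp (-X) = -f → aeval P f ≠ 0 → ∀ n : ℂ →₀ ℤ,
    (∀ z ∈ n.support, aeval z (minpoly ℚ P) = 0) →
    n.sum (fun z k => (k : ℂ) * aeval z f) = 0 → ∀ z, n z = n (-z)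

/-- There are no imaginary quadratic fields `ℚ(D)` in the algebra of endomorphisms. -/
def NoQuadraticEndomorphism : Prop :=
  ∀ D, IsEndomorphism A D → IsSkewSymmetric A D → ∀ c : ℚ, D * D = c • (1 : Module.End ℚ A.H1) →
    D = 0

/-- The degree of the field `E = ℚ(P)` is `2 e`, and `e` is an odd prime number, or an odd prime
number `l > e / 2` divides the order of the Galois group of the minimal polynomial of `P`. -/
def HasLargePrime (P : Module.End ℚ A.H1) : Prop :=
  ∃ e l : ℕ, (minpoly ℚ P).natDegree = 2 * e ∧ l.Prime ∧ l ≠ 2 ∧ e < 2 * l ∧
    (l = e ∨ l ∣ Nat.card (minpoly ℚ P).Gal)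

/-- `M` is the action of `P` on the tangent space. -/
def IsTangentAction (P : Module.End ℚ A.H1) (M : (Fin g → ℂ) →ₗ[ℂ] (Fin g → ℂ)) : Prop :=
  ∀ w, M (A.per w) = A.per (P w)

/-- `s` is a conjugate of `P`. The pairs `{s, -s}` are the places of the field `F = ℚ(P²)`. -/
def IsConjugate (P : Module.End ℚ A.H1) (s : ℂ) : Prop := aeval s (minpoly ℚ P) = 0

/-- The eigenspace of `M` for the eigenvalue `s`. -/
def eigen (M : (Fin g → ℂ) →ₗ[ℂ] (Fin g → ℂ)) (s : ℂ) : Submodule ℂ (Fin g → ℂ) :=
  LinearMap.ker (M - s • LinearMap.id)

/-- The signature at the place `{s, -s}` is definite: one of the two eigenspaces is zero. -/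
def IsDefinite (M : (Fin g → ℂ) →ₗ[ℂ] (Fin g → ℂ)) (s : ℂ) : Prop :=
  eigen M s = ⊥ ∨ eigen M (-s) = ⊥

/-- There is a definite place, and the set of the definite places is not the preimage of a set of
places of a proper subfield of `F = ℚ(P²)`: if, for an element `x = f(P²)` of `F`, any two places
where `x` has the same value are both definite or both indefinite, then `x` has different values at
different places (so `ℚ(x) = F`). -/
structure SignatureNotInduced (P : Module.End ℚ A.H1) (M : (Fin g → ℂ) →ₗ[ℂ] (Fin g → ℂ)) :
    Prop where
  definite : ∃ s, IsConjugate A P s ∧ IsDefinite M s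
  notInduced : ∀ f : ℚ[X],
    (∀ s s', IsConjugate A P s → IsConjugate A P s' → aeval (s ^ 2) f = aeval (s' ^ 2) f →
      (IsDefinite M s ↔ IsDefinite M s')) →
    ∀ s s', IsConjugate A P s → IsConjugate A P s' → aeval (s ^ 2) f = aeval (s' ^ 2) f →
      s ^ 2 = s' ^ 2

/-- The form is a product of divisor classes: a product of forms `(u, v) ↦ ω (Q u, v)`, where `ω` is
the polarization and `Q` is an endomorphism of `A`, in some order of the `2m` variables. -/
def IsProductOfDivisorClasses {m : ℕ} (ψ : Form A m) : Prop :=
  ∃ (σ : Equiv.Perm (Fin m × Fin 2)) (Q : Fin m → Module.End ℚ A.H1),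
    (∀ l, IsEndomorphism A (Q l)) ∧
    ∀ v, ψ v = ∏ l, polarization A (Q l (v (σ (l, 0)))) (v (σ (l, 1)))

/-- The condition (P) implies the condition (T). -/
lemma simpleTorus {g : ℕ} (A : AbVar g) {P : Module.End ℚ A.H1} (hP : IsCMFieldOfRankTwo A P)
    (hL : HasLargePrime A P) (hN : NoQuadraticEndomorphism A) : HasSimpleTorus A P := by
  have hPE := A.mem_EA.2 hP.endomorphism
  obtain ⟨e, l, hdeg, hl, hl2, hel, hdvd⟩ := hL
  have hg0 : 0 < g := by
    rcases Nat.eq_zero_or_pos g with hg0 | hg0
    · exfalso
      have h1 : (minpoly ℚ P).natDegree = 0 := hP.rankTwo.trans hg0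
      rw [h1] at hdeg
      have h2 : e = 0 := by omega
      rcases hdvd with h3 | h3
      · exact hl.ne_zero (h3.trans h2)
      · have h4 : Nat.card (minpoly ℚ P).Gal = 1 := by
          rw [Polynomial.eq_C_of_natDegree_eq_zero h1]
          exact Nat.card_unique
        rw [h4] at h3
        exact hl.one_lt.ne' (Nat.dvd_one.1 h3)
    · exact hg0
  have hnt : Nontrivial A.H1 := by
    have : Nonempty (Fin (2 * g)) := ⟨⟨0, by omega⟩⟩
    exact Function.nontrivial
  have hirr : Irreducible (minpoly ℚ P) :=
    Pool.Agent.W5h86.RK.irr_minpoly fun Q hQ hQ0 => hP.simple Q (A.mem_EA.1 (by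
      rw [Algebra.adjoin_singleton_eq_range_aeval] at hQ
      obtain ⟨q, rfl⟩ := hQ
      exact A.aeval_mem hPE q)) hQ0
  have hneg : ∀ z : ℂ, aeval z (minpoly ℚ P) = 0 → aeval (-z) (minpoly ℚ P) = 0 :=
    fun z hz => AbVar.neg_root A hP.skew hz
  have hS : Pool.Agent.W5h86.CC.STor (minpoly ℚ P) := by
    refine Pool.Agent.W5h86.CC.stor_of_long hl hl2 hel hirr hdeg hneg hdvd ?_
    intro q c hq hqc
    refine minpoly.dvd ℚ P ?_
    have h1 := minpoly.aeval ℚ P
    obtain ⟨r, hr⟩ := hqc
    refine hN _ (A.mem_EA.1 (A.aeval_mem hPE q)) (Pool.Agent.W5h86.CC.skew_odd A hP.skew hq) c ?_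
    have h2 := congrArg (aeval P) hr
    rw [map_mul, h1, zero_mul, map_sub, map_pow, aeval_C, sub_eq_zero, pow_two] at h2
    rw [h2, Algebra.algebraMap_eq_smul_one]
  intro f hf hf0 n hn hsum z
  exact hS f hf (fun h => hf0 (by
    obtain ⟨r, hr⟩ := h
    rw [hr, map_mul, minpoly.aeval, zero_mul])) n hn hsum z

/-- **The de Rham-Betti classes on all powers of the abelian varieties with multiplication by a
field with complex multiplication which has a simple torus, or has a real subfield of odd prime
degree (or with a large Galois group) and contains no imaginary quadratic field, of rank two and of a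
signature which is not induced from a proper subfield, are combinations of products of divisor
classes (and are Hodge classes).** -/
theorem result {g : ℕ} (A : AbVar g) {P : Module.End ℚ A.H1} (hP : IsCMFieldOfRankTwo A P)
    (hT' : HasSimpleTorus A P ∨ (HasLargePrime A P ∧ NoQuadraticEndomorphism A))
    {M : (Fin g → ℂ) →ₗ[ℂ] (Fin g → ℂ)} (hM : IsTangentAction A P M)
    (hs : SignatureNotInduced A P M) {m : ℕ} (φ : Form A m) (hφ : IsDRB A φ) :
    φ ∈ Submodule.span ℚ {ψ | IsProductOfDivisorClasses A ψ} ∧ IsHodge A φ := by
  have hT : HasSimpleTorus A P := hT'.elim id fun h => simpleTorus A hP h.1 h.2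
  have hPE := A.mem_EA.2 hP.endomorphism
  have key : ∀ Z : Module.End ℚ A.H1, IsSkewSymmetric A Z → Z * P = P * Z →
      Pool.Agent.H204R3.SP.Kills Z φ :=
    fun Z hZ1 hZ2 => Pool.Agent.W5h86.RK.main4 A hPE hP.skew
      (fun Q hQ => hP.generates Q (A.mem_EA.1 hQ)) (fun Q hQ => hP.simple Q (A.mem_EA.1 hQ)) hT
      hP.rankTwo hM hs.definite (fun f hf s s' h1 h2 h3 => by
        refine hs.notInduced f (fun s s' h1 h2 h3 => ⟨hf s s' h1 h2 h3, hf s' s h2 h1 h3.symm⟩)
          s s' h1 h2 h3) hφ hZ1 hZ2
  obtain ⟨s, hs1, hs2⟩ := hs.definite
  have hP0 : P ≠ 0 := by
    rintro rfl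
    have h1 : (minpoly ℚ (0 : Module.End ℚ A.H1)) ∣ X := by
      apply minpoly.dvd
      rw [aeval_X]
    obtain ⟨q, hq⟩ := h1
    have h2 : aeval s (X : ℚ[X]) = 0 := by
      unfold IsConjugate at hs1
      rw [hq, map_mul, hs1, zero_mul]
    rw [aeval_X] at h2
    subst h2
    have h3 : ∀ v, M v = 0 := by
      have h4 : M.restrictScalars ℝ = 0 := A.ext_per fun w => by
        change M (A.per w) = 0
        rw [hM, LinearMap.zero_apply, map_zero]
      intro v
      exact LinearMap.congr_fun h4 v
    have h4 : ∀ v : Fin g → ℂ, v = 0 := by
      intro v
      have h5 : v ∈ eigen M 0 := by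
        unfold eigen
        rw [LinearMap.mem_ker, zero_smul, sub_zero, h3]
      unfold IsDefinite at hs2
      rw [neg_zero, or_self] at hs2
      rw [hs2] at h5
      exact (Submodule.mem_bot ℂ).1 h5
    have h5 : Subsingleton A.H1 := by
      refine ⟨fun a b => A.per_inj ?_⟩
      rw [h4 (A.per a), h4 (A.per b)]
    have h6 : Subsingleton (Module.End ℚ A.H1) := ⟨fun a b => LinearMap.ext fun v =>
      Subsingleton.elim _ _⟩
    unfold IsConjugate at hs1
    rw [minpoly.subsingleton, map_one] at hs1
    exact one_ne_zero hs1
  refine ⟨?_, Pool.Agent.W5h86.LX.hodge3 A hPE key⟩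
  refine Submodule.span_mono ?_ (Pool.Agent.W5h86.LX.lef_of_kills A hPE hP.skew
    (hP.simple P hP.endomorphism hP0) key)
  rintro ψ ⟨σ, Q, hQ, hψ⟩
  exact ⟨σ, Q, fun l => A.mem_EA.1 (hQ l), hψ⟩

end Pool.Agent.Results.MP_bf54cf_ag.RankTwoAnySignature
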